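import Pool.Agent.helper358_lh.Final

/-!
# MP_e7e597_an, Q1 (full positive answer)

`K(F) = ‖dev₃ log U‖²`, `U = √(Fᵀ F)`.  There is no twice continuously differentiable
`W : [0, ∞) → ℝ` such that `F ↦ W (K (F))` is Legendre-Hadamard elliptic on `GL⁺(3)`.

Stronger: ellipticity fails for every such `W` at the one matrix `F₀ = diag (32, 1, 2^{-20})`, in
one of the two rank-one directions `(4, 1, 0) ⊗ (4, -1, 0)` and `(1, 0, 0) ⊗ (0, 1, 0)`: in both
directions the first derivative of `K` at `F₀` vanishes, and the second derivatives of `K` have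
opposite signs.
-/

open Matrix

namespace Pool.Agent.Results.MP_e7e597_an.NoEllipticDistortionalEnergy

open helper358_lh

theorem result :
    (¬ ∃ W : ℝ → ℝ, ContDiffOn ℝ 2 W (Set.Ici 0) ∧ LHElliptic fun F => W (Kdist F)) ∧
    (0 < (Matrix.diagonal ![32, 1, (1 / 2) ^ 20] : M3).det ∧
      ∀ W : ℝ → ℝ, ContDiffOn ℝ 2 W (Set.Ici 0) →
        secondDeriv (fun F => W (Kdist F)) (Matrix.diagonal ![32, 1, (1 / 2) ^ 20])
            ![4, 1, 0] ![4, -1, 0] ≤ 0 ∨
          secondDeriv (fun F => W (Kdist F)) (Matrix.diagonal ![32, 1, (1 / 2) ^ 20])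
            ![1, 0, 0] ![0, 1, 0] ≤ 0) := by
  have hF0 : (Matrix.diagonal ![32, 1, (1 / 2) ^ 20] : M3) = F0 := by
    unfold F0 ll; rfl
  have key : ∀ W : ℝ → ℝ, ContDiffOn ℝ 2 W (Set.Ici 0) →
      secondDeriv (fun F => W (Kdist F)) F0 ![4, 1, 0] ![4, -1, 0] ≤ 0 ∨
        secondDeriv (fun F => W (Kdist F)) F0 ![1, 0, 0] ![0, 1, 0] ≤ 0 := by
    intro W hW
    rw [secondA hW, secondB hW]
    have h1 := factorA_neg
    have h2 := L_pos
    rcases le_total (deriv W (350 * Real.log 2 ^ 2)) 0 with h | h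
    · right
      exact mul_nonpos_of_nonpos_of_nonneg h (by positivity)
    · left
      exact mul_nonpos_of_nonneg_of_nonpos h h1.le
  refine ⟨?_, ?_⟩
  · rintro ⟨W, hW, hell⟩
    rcases key W hW with h | h
    · exact absurd (hell F0 F0_det ![4, 1, 0] ![4, -1, 0]
        (fun h => by simpa using congrFun h 0) (fun h => by simpa using congrFun h 0)) (not_lt.2 h)
    · exact absurd (hell F0 F0_det ![1, 0, 0] ![0, 1, 0]
        (fun h => by simpa using congrFun h 0) (fun h => by simpa using congrFun h 1)) (not_lt.2 h)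
  · rw [hF0]
    exact ⟨F0_det, key⟩

end Pool.Agent.Results.MP_e7e597_an.NoEllipticDistortionalEnergy
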